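import Mathlib
import Pool.Agent.LeoD.AlgStmts

/-!
# Module FLC (squad LEOD): the coefficients of the form in terms of the coordinates
-/

set_option autoImplicit false

open NumberField NumberField.InfinitePlace NumberField.mixedEmbedding IsDedekindDomain Module
  MeasureTheory Filter Topology
open Pool.Agent.Helper85_Leo Pool.Agent.LeoK Pool.Agent.LeoG Pool.Agent.LeoC
open Pool.Agent.Leo3 (Om InLoc FixF)

open scoped Classical

namespace Pool.Agent.LeoD.H5

theorem core_eval {K : Type} [Field K] {b s ν Z W G L L' u u' : K} (hZ : Z ≠ 0) (hW : W ≠ 0)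
    (hν : ν ≠ 0) (hZW : Z * W = ν ^ 3)
    (hF : G * s = 3 * b ^ 3 * (L ^ 3 / Z - L' ^ 3 / W)) (hu : u = 2 * b ^ 2 * L)
    (hu' : u' = 2 * b ^ 2 * L') :
    8 * b ^ 3 * (ν ^ 3 * G) * s = 3 * (u ^ 3 * W - u' ^ 3 * Z) := by
  have h1 : L ^ 3 / Z = L ^ 3 * W / ν ^ 3 := by
    rw [← hZW]
    field_simp
  have h2 : L' ^ 3 / W = L' ^ 3 * Z / ν ^ 3 := by
    rw [← hZW]
    field_simp
  rw [h1, h2] at hF
  have h3 : ν ^ 3 * (G * s) = 3 * b ^ 3 * (L ^ 3 * W - L' ^ 3 * Z) := by
    rw [hF]
    field_simp
  subst hu hu'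
  linear_combination (8 * b ^ 3) * h3

theorem flc : FlcStmt := by
  intro k K _ _ _ _ _ B m s c hQ z t ν hz ht hν U V X Y X' Y' h1 h2 h3 F hF
  have hb0 : (B.b : K) ≠ 0 := by
    have h4 : B.b ≠ 0 := by
      intro h
      have h5 := B.cop
      rw [h] at h5
      norm_num at h5
    exact_mod_cast h4
  have hνk : (ν : k) ≠ 0 := fun h => hν (RingOfIntegers.coe_injective (by simpa using h))
  have hνK : algebraMap k K (ν : k) ≠ 0 := by
    intro h
    exact hνk ((algebraMap k K).injective (by rw [h, map_zero]))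
  have hs0 : (s : K) ≠ 0 := by
    intro h
    have h5 := hQ.sq
    rw [h] at h5
    have h6 : (3 * (m : k)) = 0 := by
      apply (algebraMap k K).injective
      rw [map_zero, ← h5]
      ring
    exact hQ.nsq 0 (by rw [h6]; ring)
  have hcb : c (B.b : K) = (B.b : K) := map_natCast c B.b
  have hcs : c (s : K) = -(s : K) := hQ.conj
  have hca : ∀ x : k, c (algebraMap k K x) = algebraMap k K x := fun x => c.commutes x
  have hc2 : c 2 = (2 : K) := map_ofNat c 2
  have h2' : 2 * (B.b : K) * c U = algebraMap k K (X : k) - algebraMap k K (Y : k) * s := by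
    have h5 := congrArg c h2
    rw [map_mul, map_mul, hc2, hcb, map_add, map_mul, hca, hca, hcs] at h5
    rw [h5]
    ring
  have h3' : 2 * (B.b : K) ^ 2 * c V = algebraMap k K (X' : k) - algebraMap k K (Y' : k) * s := by
    have h5 := congrArg c h3
    rw [map_mul, map_mul, map_pow, hc2, hcb, map_add, map_mul, hca, hca, hcs] at h5
    rw [h5]
    ring
  -- the determinant
  have hdet : algebraMap k K (X : k) * algebraMap k K (Y' : k) -
      algebraMap k K (X' : k) * algebraMap k K (Y : k) =
        -(2 * (B.b : K) ^ 2 * algebraMap k K (ν : k)) := by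
    have h6 : (2 * (s : K)) * (algebraMap k K (X : k) * algebraMap k K (Y' : k) -
      algebraMap k K (X' : k) * algebraMap k K (Y : k) +
        (2 * (B.b : K) ^ 2 * algebraMap k K (ν : k))) = 0 := by
      linear_combination (2 * (B.b : K) ^ 2 * c V) * h2 - (2 * (B.b : K) * c U) * h3 -
        (algebraMap k K (X' : k) + algebraMap k K (Y' : k) * s) * h2' +
        (algebraMap k K (X : k) + algebraMap k K (Y : k) * s) * h3' - 4 * (B.b : K) ^ 2 * h1
    have h7 : (2 * (s : K)) ≠ 0 := mul_ne_zero two_ne_zero hs0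
    have h8 := (mul_eq_zero.1 h6).resolve_left h7
    linear_combination h8
  refine ⟨?_, ?_⟩
  · apply RingOfIntegers.coe_injective
    apply (algebraMap k K).injective
    simp only [map_sub, map_mul, map_neg, map_pow, map_natCast, map_ofNat]
    exact hdet
  · set Z : K := ((z : 𝓞 K) : K) * (t : K) ^ 3 with hZdef
    have ht0 : (t : K) ≠ 0 := by
      intro h
      rw [h, zero_mul] at ht
      exact hνK ht.symm
    have hz0 : ((z : 𝓞 K) : K) ≠ 0 := by
      intro h
      rw [h, zero_mul] at hz
      exact zero_ne_one hz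
    have hZ0 : Z ≠ 0 := mul_ne_zero hz0 (pow_ne_zero _ ht0)
    have hW0 : c Z ≠ 0 := by
      intro h
      exact hZ0 (c.injective (by rw [h, map_zero]))
    have hZW : Z * c Z = algebraMap k K (ν : k) ^ 3 := by
      rw [hZdef, map_mul, map_pow]
      linear_combination (((t : K) * c (t : K)) ^ 3) * hz +
        (((t : K) * c (t : K)) ^ 2 + ((t : K) * c (t : K)) * algebraMap k K (ν : k) +
          algebraMap k K (ν : k) ^ 2) * ht
    have hZint : IsIntegral ℤ Z := by
      rw [hZdef]
      exact (RingOfIntegers.isIntegral_coe _).mul ((RingOfIntegers.isIntegral_coe _).pow 3)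
    have hWint : IsIntegral ℤ (c Z) := hZint.map (c : K →+* K).toIntAlgHom
    refine ⟨⟨c Z, hWint⟩, rfl, ?_⟩
    have hcX : ∀ x y : k, c ((algebraMap k K x * U + algebraMap k K y * V) ^ 3 / Z) =
        (algebraMap k K x * c U + algebraMap k K y * c V) ^ 3 / c Z := by
      intro x y
      rw [map_div₀, map_pow, map_add, map_mul, map_mul, hca, hca]
    have hev : ∀ x y : k, 8 * (B.b : K) ^ 3 * (algebraMap k K (ν : k) ^ 3 *
        algebraMap k K (gval (fun i => (F i : k)) x y)) * s =
        3 * ((algebraMap k K x * ((B.b : K) * (algebraMap k K (X : k) +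
            algebraMap k K (Y : k) * s)) + algebraMap k K y * (algebraMap k K (X' : k) +
            algebraMap k K (Y' : k) * s)) ^ 3 * c Z -
          (algebraMap k K x * ((B.b : K) * (algebraMap k K (X : k) -
            algebraMap k K (Y : k) * s)) + algebraMap k K y * (algebraMap k K (X' : k) -
            algebraMap k K (Y' : k) * s)) ^ 3 * Z) := by
      intro x y
      have h9 := hF x y
      rw [hcX] at h9
      refine core_eval hZ0 hW0 hνK hZW h9 ?_ ?_
      · rw [← h2, ← h3]
        ring
      · rw [← h2', ← h3']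
        ring
    have e10 := hev 1 0
    have e01 := hev 0 1
    have e11 := hev 1 1
    have e1m := hev 1 (-1)
    simp only [gval, map_one, map_zero, map_neg, map_add, map_mul, map_pow] at e10 e01 e11 e1m
    have hco : ∀ x : 𝓞 k, (algebraMap (𝓞 K) K) (algebraMap (𝓞 k) (𝓞 K) x : 𝓞 K) =
        algebraMap k K (x : k) := fun x => rfl
    have hWc : (algebraMap (𝓞 K) K) ⟨c Z, hWint⟩ = c Z := rfl
    have c0 : ∀ u v : 𝓞 K, cu u v 0 = u ^ 3 := fun _ _ => rfl
    have c1 : ∀ u v : 𝓞 K, cu u v 1 = 3 * u ^ 2 * v := fun _ _ => rfl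
    have c2 : ∀ u v : 𝓞 K, cu u v 2 = 3 * u * v ^ 2 := fun _ _ => rfl
    have c3 : ∀ u v : 𝓞 K, cu u v 3 = v ^ 3 := fun _ _ => rfl
    have hfin : ∀ P : Fin 4 → Prop, P 0 → P 1 → P 2 → P 3 → ∀ i, P i := by
      intro P p0 p1 p2 p3 i
      fin_cases i
      · exact p0
      · exact p1
      · exact p2
      · exact p3
    refine hfin _ ?_ ?_ ?_ ?_
    · apply RingOfIntegers.coe_injective
      simp only [c0, map_mul, map_pow, map_sub, map_add, map_natCast, map_ofNat, hco, hWc]
      rw [← hZdef]
      linear_combination e10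
    · apply RingOfIntegers.coe_injective
      simp only [c1, map_mul, map_pow, map_sub, map_add, map_natCast, map_ofNat, hco, hWc]
      rw [← hZdef]
      linear_combination (1 / 2 : K) * e11 - (1 / 2 : K) * e1m - e01
    · apply RingOfIntegers.coe_injective
      simp only [c2, map_mul, map_pow, map_sub, map_add, map_natCast, map_ofNat, hco, hWc]
      rw [← hZdef]
      linear_combination (1 / 2 : K) * e11 + (1 / 2 : K) * e1m - e10
    · apply RingOfIntegers.coe_injective
      simp only [c3, map_mul, map_pow, map_sub, map_add, map_natCast, map_ofNat, hco, hWc]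
      rw [← hZdef]
      linear_combination e01

end Pool.Agent.LeoD.H5
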