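import Mathlib
import Pool.Agent.LeoD.FieldStmts
import Pool.Agent.Helper11_LeoC.Evs

/-!
# Module COF (squad LEOD): elements of the cone in a class modulo squares of units
-/

set_option autoImplicit false

open NumberField NumberField.InfinitePlace NumberField.mixedEmbedding IsDedekindDomain Module
  MeasureTheory Filter Topology
open Pool.Agent.Helper85_Leo Pool.Agent.LeoK Pool.Agent.LeoG Pool.Agent.LeoC

open scoped Classical

namespace Pool.Agent.LeoD.H5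

theorem cof : CofStmt := by
  intro k _ _
  set T : Set (𝓞 k)ˣ := (fun ξ : (𝓞 k)ˣ => ξ ^ 2) '' (NumberField.Units.torsion k : Set (𝓞 k)ˣ)
    with hT
  have hfin : T.Finite := by
    rw [hT]
    have hf : Finite (NumberField.Units.torsion k) := inferInstance
    exact Set.Finite.image _ (Set.toFinite (NumberField.Units.torsion k : Set (𝓞 k)ˣ))
  have h1T : (1 : (𝓞 k)ˣ) ∈ T := ⟨1, one_mem (NumberField.Units.torsion k), by simp⟩
  refine ⟨T.ncard, (Set.ncard_pos hfin).2 ⟨1, h1T⟩, ?_⟩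
  intro Φ m hm
  have hmk : (m : k) ≠ 0 := fun h => hm (RingOfIntegers.coe_injective (by simpa using h))
  have hav : ∀ x : k, av (mixedEmbedding k x) = fun v : InfinitePlace k => v x := by
    intro x
    funext v
    exact Pool.Agent.LeoC.H11.av_mixed x v
  obtain ⟨η0, h0⟩ := Φ.exi (fun v : InfinitePlace k => v (m : k))
    (fun v => (InfinitePlace.pos_iff).2 hmk)
  have hcalc : ∀ η : (𝓞 k)ˣ, av (mixedEmbedding k ((((η : 𝓞 k) ^ 2 * m : 𝓞 k)) : k)) =
      fun v : InfinitePlace k => v ((η : 𝓞 k) : k) ^ 2 * v (m : k) := by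
    intro η
    rw [hav]
    funext v
    push_cast
    rw [map_mul, map_pow]
  have hS : {m' : 𝓞 k | (∃ η : (𝓞 k)ˣ, m' = (η : 𝓞 k) ^ 2 * m) ∧
      av (mixedEmbedding k (m' : k)) ∈ Φ.F} =
      (fun z : (𝓞 k)ˣ => (z : 𝓞 k) * ((η0 : 𝓞 k) ^ 2 * m)) '' T := by
    ext m'
    simp only [Set.mem_setOf_eq, Set.mem_image]
    constructor
    · rintro ⟨⟨η, rfl⟩, hF⟩
      rw [hcalc] at hF
      have hF' : (fun v : InfinitePlace k => v (((η / η0 : (𝓞 k)ˣ) : 𝓞 k) : k) ^ 2 *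
          (v ((η0 : 𝓞 k) : k) ^ 2 * v (m : k))) ∈ Φ.F := by
        have he : (fun v : InfinitePlace k => v (((η / η0 : (𝓞 k)ˣ) : 𝓞 k) : k) ^ 2 *
          (v ((η0 : 𝓞 k) : k) ^ 2 * v (m : k))) =
            fun v : InfinitePlace k => v ((η : 𝓞 k) : k) ^ 2 * v (m : k) := by
          funext v
          rw [← mul_assoc, ← mul_pow, ← map_mul]
          have h3 : (((η / η0 : (𝓞 k)ˣ) : 𝓞 k) : k) * ((η0 : 𝓞 k) : k) = ((η : 𝓞 k) : k) := by
            have h4 : ((η / η0 : (𝓞 k)ˣ) : 𝓞 k) * (η0 : 𝓞 k) = (η : 𝓞 k) := by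
              rw [← Units.val_mul, div_mul_cancel]
            have h5 := congrArg (fun x : 𝓞 k => (x : k)) h4
            simpa using h5
          rw [h3]
        rw [he]
        exact hF
      have h6 := Φ.uni _ h0 (η / η0) hF'
      refine ⟨(η / η0) ^ 2, ⟨η / η0, ?_, rfl⟩, ?_⟩
      · exact (NumberField.Units.mem_torsion k).2 h6
      · have h7 : (((η / η0) ^ 2 : (𝓞 k)ˣ) : 𝓞 k) * (η0 : 𝓞 k) ^ 2 = (η : 𝓞 k) ^ 2 := by
          rw [← Units.val_pow_eq_pow_val, ← Units.val_pow_eq_pow_val, ← Units.val_mul, ← mul_pow,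
            div_mul_cancel]
        rw [← mul_assoc, h7]
    · rintro ⟨z, ⟨ξ, hξ, rfl⟩, rfl⟩
      have hξ' := (NumberField.Units.mem_torsion k).1 hξ
      have h8 : (((ξ ^ 2 : (𝓞 k)ˣ) : 𝓞 k)) * ((η0 : 𝓞 k) ^ 2 * m) =
          ((ξ * η0 : (𝓞 k)ˣ) : 𝓞 k) ^ 2 * m := by
        rw [Units.val_pow_eq_pow_val, Units.val_mul, mul_pow, mul_assoc]
      refine ⟨⟨ξ * η0, h8⟩, ?_⟩
      rw [h8, hcalc]
      have h9 : (fun v : InfinitePlace k => v (((ξ * η0 : (𝓞 k)ˣ) : 𝓞 k) : k) ^ 2 * v (m : k)) =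
          fun v : InfinitePlace k => v ((η0 : 𝓞 k) : k) ^ 2 * v (m : k) := by
        funext v
        have h10 : (((ξ * η0 : (𝓞 k)ˣ) : 𝓞 k) : k) = ((ξ : 𝓞 k) : k) * ((η0 : 𝓞 k) : k) := by
          rw [Units.val_mul]
          push_cast
          rfl
        have h11 : v ((ξ : 𝓞 k) : k) = 1 := hξ' v
        rw [h10, map_mul, h11, one_mul]
      rw [h9]
      exact h0
  rw [hS]
  refine Set.InjOn.ncard_image ?_
  intro z _ z' _ h
  have h12 : ((η0 : 𝓞 k) ^ 2 * m) ≠ 0 := mul_ne_zero (pow_ne_zero _ η0.ne_zero) hm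
  exact Units.ext (mul_right_cancel₀ h12 h)

end Pool.Agent.LeoD.H5
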