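import Mathlib
import Pool.Agent.LeoD.LocStmts

/-!
# Module KE2 (squad LEOD): two linear equations modulo a prime power
-/

set_option autoImplicit false

open NumberField NumberField.InfinitePlace NumberField.mixedEmbedding IsDedekindDomain Module
  MeasureTheory Filter Topology
open Pool.Agent.Helper85_Leo Pool.Agent.LeoK Pool.Agent.LeoG Pool.Agent.LeoC

open scoped Classical

namespace Pool.Agent.LeoD.H5

section Chain

variable {R : Type} [CommRing R] [Finite R]

/-- The number of solutions of `t y = 0`. -/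
noncomputable def an (t : R) : ℕ := Nat.card {y : R // t * y = 0}

/-- The number of solutions of the two linear equations. -/
noncomputable def kr (a b c d : R) : ℕ :=
  Nat.card {v : R × R // a * v.1 + b * v.2 = 0 ∧ c * v.1 + d * v.2 = 0}

theorem an_le (a b c d : R) (hb : a ∣ b) (hc : a ∣ c) (hd : a ∣ d) :
    an (a * d - b * c) ≤ kr a b c d := by
  obtain ⟨b', rfl⟩ := hb
  obtain ⟨c', rfl⟩ := hc
  obtain ⟨d', rfl⟩ := hd
  set σ : R → R := Function.invFun (fun y : R => a * y) with hσdef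
  have hσ : ∀ y : R, a * σ (a * y) = a * y := fun y =>
    Function.invFun_eq (f := fun y : R => a * y) ⟨y, rfl⟩
  unfold an kr
  refine Nat.card_le_card_of_injective
    (fun y => ⟨(y.1 - σ (a * y.1) - b' * (a * y.1), a * y.1), ?_, ?_⟩) ?_
  · have h1 := hσ y.1
    linear_combination -h1
  · have h1 := hσ y.1
    have h2 := y.2
    linear_combination (-c') * h1 + h2
  · intro y y' h
    have h1 := congrArg (fun v => v.1.1) h
    have h2 := congrArg (fun v => v.1.2) h
    simp only at h1 h2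
    apply Subtype.ext
    rw [h2] at h1
    linear_combination h1

theorem kr_swap (a b c d : R) : kr a b c d = kr b a d c := by
  unfold kr
  refine Nat.card_congr ⟨fun v => ⟨(v.1.2, v.1.1), ?_, ?_⟩, fun v => ⟨(v.1.2, v.1.1), ?_, ?_⟩,
    fun v => rfl, fun v => rfl⟩
  · have h := v.2.1
    linear_combination h
  · have h := v.2.2
    linear_combination h
  · have h := v.2.1
    linear_combination h
  · have h := v.2.2
    linear_combination h

theorem kr_rows (a b c d : R) : kr a b c d = kr c d a b := by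
  unfold kr
  exact Nat.card_congr ⟨fun v => ⟨v.1, v.2.2, v.2.1⟩, fun v => ⟨v.1, v.2.2, v.2.1⟩,
    fun v => rfl, fun v => rfl⟩

theorem an_neg (t : R) : an (-t) = an t := by
  unfold an
  refine Nat.card_congr ⟨fun v => ⟨v.1, ?_⟩, fun v => ⟨v.1, ?_⟩, fun v => rfl, fun v => rfl⟩
  · have h := v.2
    linear_combination -h
  · have h := v.2
    linear_combination -h

theorem an_le_kr (hT : ∀ r s : R, r ∣ s ∨ s ∣ r) (a b c d : R) :
    an (a * d - b * c) ≤ kr a b c d := by
  have ha : a ∣ b → a ∣ c → a ∣ d → an (a * d - b * c) ≤ kr a b c d := an_le a b c d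
  have hb : b ∣ a → b ∣ c → b ∣ d → an (a * d - b * c) ≤ kr a b c d := by
    intro h1 h2 h3
    have h := an_le b a d c h1 h3 h2
    rw [← kr_swap a b c d, ← an_neg] at h
    have he : -(b * c - a * d) = a * d - b * c := by ring
    rwa [he] at h
  have hc : c ∣ a → c ∣ b → c ∣ d → an (a * d - b * c) ≤ kr a b c d := by
    intro h1 h2 h3
    have h := an_le c d a b h3 h1 h2
    rw [← kr_rows a b c d, ← an_neg] at h
    have he : -(c * b - d * a) = a * d - b * c := by ring
    rwa [he] at h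
  have hd : d ∣ a → d ∣ b → d ∣ c → an (a * d - b * c) ≤ kr a b c d := by
    intro h1 h2 h3
    have h := an_le d c b a h3 h2 h1
    rw [← kr_swap c d a b, ← kr_rows a b c d] at h
    have he : d * a - c * b = a * d - b * c := by ring
    rwa [he] at h
  rcases hT a b with h1 | h1
  · rcases hT c d with h2 | h2
    · rcases hT a c with h3 | h3
      · exact ha h1 h3 (h3.trans h2)
      · exact hc h3 (h3.trans h1) h2
    · rcases hT a d with h3 | h3
      · exact ha h1 (h3.trans h2) h3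
      · exact hd h3 (h3.trans h1) h2
  · rcases hT c d with h2 | h2
    · rcases hT b c with h3 | h3
      · exact hb h1 h3 (h3.trans h2)
      · exact hc (h3.trans h1) h3 h2
    · rcases hT b d with h3 | h3
      · exact hb h1 (h3.trans h2) h3
      · exact hd (h3.trans h1) h3 h2

end Chain

variable {k : Type} [Field k] [NumberField k]

theorem finite_quot (p : HeightOneSpectrum (𝓞 k)) (M : ℕ) : Finite (𝓞 k ⧸ p.asIdeal ^ M) := by
  have h : p.asIdeal ^ M ≠ ⊥ := pow_ne_zero _ p.ne_bot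
  exact Ideal.finiteQuotientOfFreeOfNeBot _ h

theorem dvd_or_dvd (p : HeightOneSpectrum (𝓞 k)) (M : ℕ) (r s : 𝓞 k ⧸ p.asIdeal ^ M) :
    r ∣ s ∨ s ∣ r := by
  obtain ⟨a, rfl⟩ := Ideal.Quotient.mk_surjective r
  obtain ⟨b, rfl⟩ := Ideal.Quotient.mk_surjective s
  have hp : Prime p.asIdeal := p.prime
  have key : ∀ x : 𝓞 k, ∃ i : ℕ, Ideal.span {x} ⊔ p.asIdeal ^ M = p.asIdeal ^ i := by
    intro x
    have h1 : (Ideal.span {x} ⊔ p.asIdeal ^ M) ∣ p.asIdeal ^ M :=
      Ideal.dvd_iff_le.2 le_sup_right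
    obtain ⟨i, _, hi⟩ := (dvd_prime_pow hp M).1 h1
    exact ⟨i, associated_iff_eq.1 hi⟩
  have main : ∀ (x y : 𝓞 k) (i j : ℕ), Ideal.span {x} ⊔ p.asIdeal ^ M = p.asIdeal ^ i →
      Ideal.span {y} ⊔ p.asIdeal ^ M = p.asIdeal ^ j → i ≤ j →
      Ideal.Quotient.mk (p.asIdeal ^ M) x ∣ Ideal.Quotient.mk (p.asIdeal ^ M) y := by
    intro x y i j hi hj hij
    have h1 : y ∈ p.asIdeal ^ j := by
      rw [← hj]
      exact Ideal.mem_sup_left (Ideal.mem_span_singleton_self y)
    have h2 : y ∈ Ideal.span {x} ⊔ p.asIdeal ^ M := by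
      rw [hi]
      exact Ideal.pow_le_pow_right hij h1
    obtain ⟨u, hu, v, hv, huv⟩ := Submodule.mem_sup.1 h2
    obtain ⟨t, rfl⟩ := Ideal.mem_span_singleton.1 hu
    refine ⟨Ideal.Quotient.mk _ t, ?_⟩
    rw [← map_mul, ← huv, map_add, Ideal.Quotient.eq_zero_iff_mem.2 hv, add_zero]
  obtain ⟨i, hi⟩ := key a
  obtain ⟨j, hj⟩ := key b
  rcases le_total i j with h | h
  · exact Or.inl (main a b i j hi hj h)
  · exact Or.inr (main b a j i hj hi h)

theorem card_quot (p : HeightOneSpectrum (𝓞 k)) (M : ℕ) :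
    Nat.card (𝓞 k ⧸ p.asIdeal ^ M) = Ideal.absNorm p.asIdeal ^ M := by
  rw [← map_pow, Ideal.absNorm_apply, Submodule.cardQuot_apply]

theorem ann_card (p : HeightOneSpectrum (𝓞 k)) (M j : ℕ) (t : 𝓞 k) (hj : j ≤ M)
    (ht : t ∈ p.asIdeal ^ j) :
    Ideal.absNorm p.asIdeal ^ j ≤ an (Ideal.Quotient.mk (p.asIdeal ^ M) t) := by
  have hfin := finite_quot p M
  set I : Ideal (𝓞 k ⧸ p.asIdeal ^ M) :=
    (p.asIdeal ^ (M - j)).map (Ideal.Quotient.mk (p.asIdeal ^ M)) with hI
  have hle : p.asIdeal ^ M ≤ p.asIdeal ^ (M - j) := Ideal.pow_le_pow_right (Nat.sub_le M j)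
  have h1 : Nat.card (𝓞 k ⧸ p.asIdeal ^ M) =
      Nat.card I * Nat.card ((𝓞 k ⧸ p.asIdeal ^ M) ⧸ I) :=
    Submodule.card_eq_card_quotient_mul_card I
  have h2 : Nat.card ((𝓞 k ⧸ p.asIdeal ^ M) ⧸ I) = Nat.card (𝓞 k ⧸ p.asIdeal ^ (M - j)) :=
    Nat.card_congr (DoubleQuot.quotQuotEquivQuotOfLE hle).toEquiv
  rw [h2, card_quot, card_quot] at h1
  have hq : 0 < Ideal.absNorm p.asIdeal :=
    Nat.pos_of_ne_zero (fun h => p.ne_bot (Ideal.absNorm_eq_zero_iff.1 h))
  have h3 : Nat.card I = Ideal.absNorm p.asIdeal ^ j := by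
    have h4 : Ideal.absNorm p.asIdeal ^ M =
        Ideal.absNorm p.asIdeal ^ j * Ideal.absNorm p.asIdeal ^ (M - j) := by
      rw [← pow_add]
      congr 1
      omega
    rw [h4] at h1
    exact (Nat.eq_of_mul_eq_mul_right (pow_pos hq _) h1).symm
  rw [← h3]
  unfold an
  refine Nat.card_le_card_of_injective (fun y : I => ⟨y.1, ?_⟩) ?_
  · obtain ⟨x, hx, hxy⟩ := (Ideal.mem_map_iff_of_surjective _
      Ideal.Quotient.mk_surjective).1 y.2
    rw [← hxy, ← map_mul]
    refine Ideal.Quotient.eq_zero_iff_mem.2 ?_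
    have h5 := Ideal.mul_mem_mul ht hx
    rw [← pow_add] at h5
    have h6 : j + (M - j) = M := by omega
    rwa [h6] at h5
  · intro y y' h
    have h7 := congrArg (fun v => v.1) h
    exact Subtype.ext h7

theorem ke2 : Ke2Stmt := by
  intro k _ _ p M j a b c d hj hdet
  have hfin := finite_quot p M
  have h1 := ann_card p M j (a * d - b * c) hj hdet
  have h2 := an_le_kr (dvd_or_dvd p M) (Ideal.Quotient.mk _ a) (Ideal.Quotient.mk _ b)
    (Ideal.Quotient.mk _ c) (Ideal.Quotient.mk _ d)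
  rw [← map_mul, ← map_mul, ← map_sub] at h2
  have h3 := h1.trans h2
  unfold kr at h3
  unfold np
  exact_mod_cast h3

end Pool.Agent.LeoD.H5
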