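import Mathlib
import Pool.Agent.LeoD.LocStmts
import Pool.Agent.Helper65_LeoG.Ld3

/-!
# Squad leod: module LT3
-/

set_option autoImplicit false

open Finset
open Pool.Agent.LeoK Pool.Agent.LeoG

namespace Pool.Agent.LeoD.H5

section
variable {A : Type} [Field A] [Fintype A]

/-- value at a point of the projective line -/
def evp (v : Q4 A) : Option A → A
  | none => v 0
  | some t => gval v t 1

omit [Fintype A] in
theorem two_ne3 (h3 : (3 : A) = 0) : (2 : A) ≠ 0 := by
  intro h2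
  have h1 : (1 : A) = 0 := by linear_combination h3 - h2
  exact one_ne_zero h1

omit [Fintype A] in
/-- three zeros, the first at infinity -/
theorem three_inf (h2 : (2 : A) ≠ 0) (v : Q4 A) (hd : dsc v ≠ 0) (h0 : v 0 = 0) (s : A)
    (hs : s ^ 2 = dsc v) :
    ∃ t t' : A, t ≠ t' ∧ gval v t 1 = 0 ∧ gval v t' 1 = 0 := by
  have hdv : dsc v = v 1 ^ 2 * (v 2 ^ 2 - 4 * v 1 * v 3) := by
    unfold dsc
    rw [h0]
    ring
  have hB : v 1 ≠ 0 := by
    intro h
    apply hd
    rw [hdv, h]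
    ring
  have hs0 : s ≠ 0 := by
    intro h
    apply hd
    rw [← hs, h]
    ring
  have hq : (s / v 1) ^ 2 = v 2 ^ 2 - 4 * v 1 * v 3 := by
    rw [div_pow, hs, hdv]
    field_simp
  have key : ∀ e : A, e ^ 2 = v 2 ^ 2 - 4 * v 1 * v 3 →
      gval v ((-v 2 + e) / (2 * v 1)) 1 = 0 := by
    intro e he
    obtain ⟨u, hu⟩ : ∃ u, u = (-v 2 + e) / (2 * v 1) := ⟨_, rfl⟩
    have hu2 : 2 * v 1 * u = -v 2 + e := by
      rw [hu, mul_div_cancel₀ _ (mul_ne_zero h2 hB)]
    rw [← hu]
    have h5 : (2 * 2 * v 1) * gval v u 1 = 0 := by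
      unfold gval
      rw [h0]
      linear_combination (2 * v 1 * u + v 2 + e) * hu2 + he
    rcases mul_eq_zero.1 h5 with h6 | h6
    · exact absurd h6 (mul_ne_zero (mul_ne_zero h2 h2) hB)
    · exact h6
  refine ⟨(-v 2 + s / v 1) / (2 * v 1), (-v 2 + -(s / v 1)) / (2 * v 1), ?_, key _ hq,
    key _ (by rw [neg_sq, hq])⟩
  intro h
  rw [div_left_inj' (mul_ne_zero h2 hB)] at h
  have h5 : 2 * (s / v 1) = 0 := by linear_combination h
  rcases mul_eq_zero.1 h5 with h6 | h6
  · exact h2 h6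
  · rcases div_eq_zero_iff.1 h6 with h7 | h7
    · exact hs0 h7
    · exact hB h7

omit [Fintype A] in
/-- three zeros, the first finite -/
theorem three_fin (h2 : (2 : A) ≠ 0) (v : Q4 A) (hd : dsc v ≠ 0) (t : A)
    (h0 : gval v t 1 = 0) (s : A) (hs : s ^ 2 = dsc v) :
    ∃ P P' : Option A, P ≠ P' ∧ P ≠ some t ∧ P' ≠ some t ∧ evp v P = 0 ∧ evp v P' = 0 := by
  obtain ⟨f, hf⟩ : ∃ f, f = 3 * v 0 * t ^ 2 + 2 * v 1 * t + v 2 := ⟨_, rfl⟩
  have hD : v 3 = -(v 0 * t ^ 3 + v 1 * t ^ 2 + v 2 * t) := by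
    unfold gval at h0
    linear_combination h0
  have hdv : dsc v = f ^ 2 * ((v 1 + v 0 * t) ^ 2 - 4 * v 0 * (v 2 + v 1 * t + v 0 * t ^ 2)) := by
    unfold dsc
    rw [hD, hf]
    ring
  have hF : f ≠ 0 := by
    intro h
    apply hd
    rw [hdv, h]
    ring
  have hs0 : s ≠ 0 := by
    intro h
    apply hd
    rw [← hs, h]
    ring
  have hq : (s / f) ^ 2 = (v 1 + v 0 * t) ^ 2 - 4 * v 0 * (v 2 + v 1 * t + v 0 * t ^ 2) := by
    rw [div_pow, hs, hdv]
    field_simp
  have hsf : s / f ≠ 0 := div_ne_zero hs0 hF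
  have hfac : ∀ u : A, gval v u 1 =
      (u - t) * (v 0 * u ^ 2 + (v 1 + v 0 * t) * u + (v 2 + v 1 * t + v 0 * t ^ 2)) := by
    intro u
    unfold gval
    rw [hD]
    ring
  have hne : ∀ u : A, v 0 * u ^ 2 + (v 1 + v 0 * t) * u + (v 2 + v 1 * t + v 0 * t ^ 2) = 0 →
      u ≠ t := by
    intro u hu h
    apply hF
    rw [hf, ← hu, h]
    ring
  by_cases hA : v 0 = 0
  · have hB : v 1 ≠ 0 := by
      intro h
      apply hd
      rw [hdv, hA, h]
      ring
    have h5 : v 0 * (-(v 2 + v 1 * t) / v 1) ^ 2 + (v 1 + v 0 * t) * (-(v 2 + v 1 * t) / v 1) +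
        (v 2 + v 1 * t + v 0 * t ^ 2) = 0 := by
      rw [hA]
      field_simp
      ring
    refine ⟨none, some (-(v 2 + v 1 * t) / v 1), ?_, ?_, ?_, hA, ?_⟩
    · exact fun h => by cases h
    · exact fun h => by cases h
    · intro h
      exact hne _ h5 (Option.some.inj h)
    · show gval v _ 1 = 0
      rw [hfac, h5, mul_zero]
  · have key : ∀ e : A, e ^ 2 = (v 1 + v 0 * t) ^ 2 - 4 * v 0 * (v 2 + v 1 * t + v 0 * t ^ 2) →
        v 0 * ((-(v 1 + v 0 * t) + e) / (2 * v 0)) ^ 2 +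
          (v 1 + v 0 * t) * ((-(v 1 + v 0 * t) + e) / (2 * v 0)) +
          (v 2 + v 1 * t + v 0 * t ^ 2) = 0 := by
      intro e he
      field_simp
      linear_combination he
    have k1 := key _ hq
    have k2 := key (-(s / f)) (by rw [neg_sq, hq])
    refine ⟨some ((-(v 1 + v 0 * t) + s / f) / (2 * v 0)),
      some ((-(v 1 + v 0 * t) + -(s / f)) / (2 * v 0)), ?_, ?_, ?_, ?_, ?_⟩
    · intro h
      have h := Option.some.inj h
      rw [div_left_inj' (mul_ne_zero h2 hA)] at h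
      have h5 : 2 * (s / f) = 0 := by linear_combination h
      rcases mul_eq_zero.1 h5 with h6 | h6
      · exact h2 h6
      · exact hsf h6
    · intro h
      exact hne _ k1 (Option.some.inj h)
    · intro h
      exact hne _ k2 (Option.some.inj h)
    · show gval v _ 1 = 0
      rw [hfac, k1, mul_zero]
    · show gval v _ 1 = 0
      rw [hfac, k2, mul_zero]

open scoped Classical in
theorem three_le (h2 : (2 : A) ≠ 0) (v : Q4 A) (hd : dsc v ≠ 0) (s : A) (hs : s ^ 2 = dsc v)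
    (h : ∃ P : Option A, evp v P = 0) :
    3 ≤ (univ.filter fun P : Option A => evp v P = 0).card := by
  obtain ⟨P, hP⟩ := h
  have h3 : ∃ P₁ P₂ P₃ : Option A, P₁ ≠ P₂ ∧ P₁ ≠ P₃ ∧ P₂ ≠ P₃ ∧ evp v P₁ = 0 ∧ evp v P₂ = 0 ∧
      evp v P₃ = 0 := by
    cases P with
    | none =>
      obtain ⟨t, t', htt, h1, h1'⟩ := three_inf h2 v hd hP s hs
      exact ⟨none, some t, some t', Option.some_ne_none t |>.symm,
        Option.some_ne_none t' |>.symm, fun h => htt (Option.some.inj h), hP, h1, h1'⟩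
    | some t =>
      obtain ⟨P, P', h1, h4, h5, h6, h7⟩ := three_fin h2 v hd t hP s hs
      exact ⟨P, P', some t, h1, h4, h5, h6, h7, hP⟩
  obtain ⟨P₁, P₂, P₃, h12, h13, h23, h1, h4, h5⟩ := h3
  have hsub : ({P₁, P₂, P₃} : Finset (Option A)) ⊆ univ.filter fun P : Option A => evp v P = 0 := by
    intro Q hQ
    rw [Finset.mem_filter]
    refine ⟨mem_univ _, ?_⟩
    rcases Finset.mem_insert.1 hQ with rfl | hQ
    · exact h1
    rcases Finset.mem_insert.1 hQ with rfl | hQ
    · exact h4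
    rw [Finset.mem_singleton.1 hQ]
    exact h5
  have hc : ({P₁, P₂, P₃} : Finset (Option A)).card = 3 := Finset.card_eq_three.2
    ⟨P₁, P₂, P₃, h12, h13, h23, rfl⟩
  rw [← hc]
  exact Finset.card_le_card hsub

omit [Fintype A] in
theorem dsc_gact (v : Q4 A) (t : A) : dsc (gact v t 1 1 0) = dsc v := by
  simp only [dsc, gact, gval, Matrix.cons_val_zero, Matrix.cons_val_one, Matrix.cons_val]
  ring

open scoped Classical in
theorem cnt_inf (h2 : (2 : A) ≠ 0) :
    (univ.filter fun v : Q4 A => dsc v ≠ 0 ∧ v 0 = 0).card ≤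
      (Fintype.card A - 1) * (Fintype.card A * (Fintype.card A - 1)) := by
  have h1 : ((univ.filter fun a : A => a ≠ 0) ×ˢ ((univ : Finset A) ×ˢ
      (univ.filter fun a : A => a ≠ 0))).card =
      (Fintype.card A - 1) * (Fintype.card A * (Fintype.card A - 1)) := by
    rw [Finset.card_product, Finset.card_product, Finset.filter_ne' univ (0 : A),
      Finset.card_erase_of_mem (mem_univ _), Finset.card_univ]
  rw [← h1]
  refine Finset.card_le_card_of_injOn (fun v : Q4 A => (v 1, (v 2, v 2 ^ 2 - 4 * v 1 * v 3)))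
    ?_ ?_
  · intro v hv
    obtain ⟨-, hd, h0⟩ := Finset.mem_filter.1 hv
    have hdv : dsc v = v 1 ^ 2 * (v 2 ^ 2 - 4 * v 1 * v 3) := by
      unfold dsc
      rw [h0]
      ring
    rw [Finset.mem_coe, Finset.mem_product, Finset.mem_product]
    refine ⟨Finset.mem_filter.2 ⟨mem_univ _, ?_⟩, mem_univ _, Finset.mem_filter.2
      ⟨mem_univ _, ?_⟩⟩
    · intro h
      apply hd
      have h : v 1 = 0 := h
      rw [hdv, h]
      ring
    · intro h
      apply hd
      have h : v 2 ^ 2 - 4 * v 1 * v 3 = 0 := h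
      rw [hdv, h]
      ring
  · intro v hv w hw h
    obtain ⟨-, hd, h0⟩ := Finset.mem_filter.1 hv
    obtain ⟨-, hd', h0'⟩ := Finset.mem_filter.1 hw
    have e1 : v 1 = w 1 := (Prod.mk.inj h).1
    have e2 : v 2 = w 2 := (Prod.mk.inj (Prod.mk.inj h).2).1
    have e3 : v 2 ^ 2 - 4 * v 1 * v 3 = w 2 ^ 2 - 4 * w 1 * w 3 := (Prod.mk.inj (Prod.mk.inj h).2).2
    have hB : v 1 ≠ 0 := by
      intro h
      apply hd
      unfold dsc
      rw [h0, h]
      ring
    have e4 : v 3 = w 3 := by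
      have h5 : (2 * 2 * v 1) * v 3 = (2 * 2 * v 1) * w 3 := by
        rw [← e1, ← e2] at e3
        linear_combination -e3
      exact mul_left_cancel₀ (mul_ne_zero (mul_ne_zero h2 h2) hB) h5
    funext i
    fin_cases i
    · exact h0.trans h0'.symm
    · exact e1
    · exact e2
    · exact e4

open scoped Classical in
theorem cnt_pt (h2 : (2 : A) ≠ 0) (P : Option A) :
    (univ.filter fun v : Q4 A => dsc v ≠ 0 ∧ evp v P = 0).card ≤
      (Fintype.card A - 1) * (Fintype.card A * (Fintype.card A - 1)) := by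
  cases P with
  | none => exact cnt_inf h2
  | some t =>
    refine le_trans ?_ (cnt_inf h2)
    refine Finset.card_le_card_of_injOn (fun v : Q4 A => gact v t 1 1 0) ?_ ?_
    · intro v hv
      obtain ⟨-, hd, h0⟩ := Finset.mem_filter.1 hv
      have h0 : gval v t 1 = 0 := h0
      refine Finset.mem_filter.2 ⟨mem_univ _, ?_, ?_⟩
      · rw [dsc_gact]
        exact hd
      · exact h0
    · intro v _ w _ h
      have h : gact v t 1 1 0 = gact w t 1 1 0 := h
      have c0 := congrFun h 0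
      have c1 := congrFun h 1
      have c2 := congrFun h 2
      have c3 := congrFun h 3
      simp only [gact, gval, Matrix.cons_val_zero, Matrix.cons_val_one, Matrix.cons_val] at c0 c1 c2 c3
      have e0 : v 0 = w 0 := by linear_combination c3
      have e1 : v 1 = w 1 := by linear_combination c2 - 3 * t * e0
      have e2 : v 2 = w 2 := by linear_combination c1 - 3 * t ^ 2 * e0 - 2 * t * e1
      have e3 : v 3 = w 3 := by linear_combination c0 - t ^ 3 * e0 - t ^ 2 * e1 - t * e2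
      funext i
      fin_cases i
      · exact e0
      · exact e1
      · exact e2
      · exact e3

/-- LT3 -/
theorem lt3 : Lt3Stmt := by
  classical
  intro A _ _ h3
  have h2 := two_ne3 h3
  have hns := Pool.Agent.LeoG.H65.ld3 A h3
  have hq1 : 1 ≤ Fintype.card A := Fintype.card_pos
  obtain ⟨N, hN⟩ : ∃ N : Q4 A → ℕ, ∀ v, N v = if ∀ x : A, x ^ 2 ≠ dsc v then 1 else 0 :=
    ⟨_, fun _ => rfl⟩
  obtain ⟨r, hr⟩ : ∃ r : Q4 A → ℕ, ∀ v, r v = (univ.filter fun P : Option A => evp v P = 0).card :=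
    ⟨_, fun _ => rfl⟩
  -- the nonsquares
  have hNs : ((∑ v : Q4 A, N v : ℕ) : ℝ) = Nat.card {v : Q4 A // ∀ x : A, x ^ 2 ≠ dsc v} := by
    rw [Nat.card_eq_fintype_card, Fintype.card_subtype, Finset.card_filter]
    rw [Finset.sum_congr rfl fun v _ => hN v]
  -- the set W
  obtain ⟨W, hW⟩ : ∃ W : Finset (Q4 A), W = univ.filter fun v : Q4 A =>
      dsc v ≠ 0 ∧ ∃ x y : A, (x ≠ 0 ∨ y ≠ 0) ∧ gval v x y = 0 := ⟨_, rfl⟩
  obtain ⟨V, hV⟩ : ∃ V : Finset (Q4 A), V = univ.filter fun v : Q4 A => dsc v ≠ 0 := ⟨_, rfl⟩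
  have hWc : Nat.card {v : Q4 A // dsc v ≠ 0 ∧ ∃ x y : A, (x ≠ 0 ∨ y ≠ 0) ∧ gval v x y = 0} =
      W.card := by
    rw [Nat.card_eq_fintype_card, Fintype.card_subtype, hW]
  have hWV : W ⊆ V := by
    intro v hv
    rw [hW, Finset.mem_filter] at hv
    rw [hV, Finset.mem_filter]
    exact ⟨hv.1, hv.2.1⟩
  have hpt : ∀ v ∈ W, 3 ≤ r v + 2 * N v := by
    intro v hv
    rw [hW, Finset.mem_filter] at hv
    obtain ⟨-, hd, x, y, hxy, h0⟩ := hv
    have hP : ∃ P : Option A, evp v P = 0 := by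
      by_cases hy : y = 0
      · refine ⟨none, ?_⟩
        have hx : x ≠ 0 := by
          rcases hxy with h | h
          · exact h
          · exact absurd hy h
        unfold gval at h0
        rw [hy] at h0
        have h5 : v 0 * x ^ 3 = 0 := by linear_combination h0
        rcases mul_eq_zero.1 h5 with h6 | h6
        · exact h6
        · exact absurd (pow_eq_zero_iff (by norm_num) |>.1 h6) hx
      · refine ⟨some (x / y), ?_⟩
        show gval v (x / y) 1 = 0
        have h5 : y ^ 3 * gval v (x / y) 1 = gval v x y := by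
          unfold gval
          field_simp
        rw [h0] at h5
        rcases mul_eq_zero.1 h5 with h6 | h6
        · exact absurd (pow_eq_zero_iff (by norm_num) |>.1 h6) hy
        · exact h6
    have h1 : 1 ≤ r v := by
      rw [hr]
      obtain ⟨P, hP⟩ := hP
      exact Finset.card_pos.2 ⟨P, Finset.mem_filter.2 ⟨mem_univ _, hP⟩⟩
    by_cases hsq : ∀ x : A, x ^ 2 ≠ dsc v
    · rw [hN, if_pos hsq]
      omega
    · push Not at hsq
      obtain ⟨s, hs⟩ := hsq
      have h5 := three_le h2 v hd s hs hP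
      rw [← hr] at h5
      omega
  have hrs : ∑ v ∈ V, r v ≤ (Fintype.card A + 1) *
      ((Fintype.card A - 1) * (Fintype.card A * (Fintype.card A - 1))) := by
    have h5 : ∑ v ∈ V, r v = ∑ P : Option A,
        (univ.filter fun v : Q4 A => dsc v ≠ 0 ∧ evp v P = 0).card := by
      simp only [hr, Finset.card_filter]
      rw [Finset.sum_comm]
      refine Finset.sum_congr rfl fun P _ => ?_
      rw [hV, Finset.sum_filter]
      refine Finset.sum_congr rfl fun v _ => ?_
      by_cases h6 : dsc v ≠ 0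
      · rw [if_pos h6]
        by_cases h7 : evp v P = 0
        · rw [if_pos h7, if_pos ⟨h6, h7⟩]
        · rw [if_neg h7, if_neg (fun h => h7 h.2)]
      · rw [if_neg h6, if_neg (fun h => h6 h.1)]
    rw [h5]
    refine (Finset.sum_le_sum fun P _ => cnt_pt h2 P).trans ?_
    rw [Finset.sum_const, Finset.card_univ, Fintype.card_option, smul_eq_mul]
  have h7 : 3 * W.card ≤ (Fintype.card A + 1) *
      ((Fintype.card A - 1) * (Fintype.card A * (Fintype.card A - 1))) + 2 * ∑ v, N v := by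
    calc 3 * W.card = ∑ v ∈ W, 3 := by rw [Finset.sum_const, smul_eq_mul, mul_comm]
      _ ≤ ∑ v ∈ W, (r v + 2 * N v) := Finset.sum_le_sum hpt
      _ = ∑ v ∈ W, r v + 2 * ∑ v ∈ W, N v := by rw [Finset.sum_add_distrib, Finset.mul_sum]
      _ ≤ ∑ v ∈ V, r v + 2 * ∑ v, N v := by
          refine add_le_add (Finset.sum_le_sum_of_subset hWV) (Nat.mul_le_mul_left _ ?_)
          exact Finset.sum_le_sum_of_subset (Finset.subset_univ _)
      _ ≤ _ := Nat.add_le_add_right hrs _
  rw [hWc]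
  have h8 : (3 : ℝ) * W.card ≤ ((Fintype.card A : ℝ) + 1) *
      (((Fintype.card A : ℝ) - 1) * ((Fintype.card A : ℝ) * ((Fintype.card A : ℝ) - 1))) +
      2 * ((∑ v, N v : ℕ) : ℝ) := by
    have h9 : ((3 * W.card : ℕ) : ℝ) ≤ (((Fintype.card A + 1) *
      ((Fintype.card A - 1) * (Fintype.card A * (Fintype.card A - 1))) + 2 * ∑ v, N v : ℕ) : ℝ) :=
      Nat.cast_le.2 h7
    rw [Nat.cast_mul, Nat.cast_add, Nat.cast_mul, Nat.cast_mul, Nat.cast_mul, Nat.cast_mul,
      Nat.cast_add, Nat.cast_sub hq1] at h9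
    push_cast at h9 ⊢
    exact h9
  refine h8.trans (le_of_eq ?_)
  rw [hNs, hns]
  have hq0 : (Fintype.card A : ℝ) ≠ 0 := by
    exact_mod_cast Fintype.card_ne_zero
  field_simp
  ring

end

end Pool.Agent.LeoD.H5
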